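import Pool.Agent.Y593.LC.Contact

set_option autoImplicit false

/-!
# The properties used in the statement about the lcs-fication of the contact 3-torus
-/
open scoped ContDiff Manifold
open Pool.Agent.H660R3 Pool.Agent.H660R3.Torus Real

namespace Pool.Agent.Y593.LC

section
variable {n : ℕ} {M : Type} [TopologicalSpace M] [ChartedSpace (EuclideanSpace ℝ (Fin n)) M]

/-- `pr : ℝⁿ → M` exhibits the manifold `M` as the torus `ℝⁿ/ℤⁿ`: it is a quotient map, two points have
the same image iff they differ by an integer vector, and the inverses of the charts of `M` are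
restrictions of `pr` (so the coordinates of `M` are those of `ℝⁿ`). -/
structure IsTorus (pr : EuclideanSpace ℝ (Fin n) → M) : Prop where
  quotient : Topology.IsQuotientMap pr
  eq_iff : ∀ a b, pr a = pr b ↔ ∃ m : Fin n → ℤ, ∀ i, b i = a i + m i
  chart : ∀ (x₀ : M) (y : EuclideanSpace ℝ (Fin n)),
    (chartAt (EuclideanSpace ℝ (Fin n)) x₀).symm y = pr y

variable (n M) in
/-- `M` is a closed connected smooth manifold (with its given charts). -/
structure IsClosedManifold : Prop where
  smooth : IsManifold (𝓡 n) ∞ M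
  t2 : T2Space M
  second : SecondCountableTopology M
  compact : CompactSpace M
  connected : ConnectedSpace M

/-- The 1-form `b` is a positive function times the 1-form `b'`. -/
def IsConformal (b b' : OneForm n M) : Prop :=
  ∀ p, ∃ c : ℝ, 0 < c ∧ ∀ u, b.val p u = c * b'.val p u

/-- `b ε` tends to `b'` in `C^k` for every `k`, as `ε` decreases to `0`. -/
def TendsInCk (b : ℝ → OneForm n M) (b' : OneForm n M) : Prop :=
  ∀ (k : ℕ) (δ : ℝ), 0 < δ → ∃ ε₁ : ℝ, 0 < ε₁ ∧ ∀ ε, 0 < ε → ε < ε₁ → CkClose k δ (b ε) b'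

end

/-- In every chart, the 1-form on the 3-dimensional manifold is `cos(2πy₂) dy₀ + sin(2πy₂) dy₁`. -/
def IsCosSin3 {N : Type} [TopologicalSpace N] [ChartedSpace (EuclideanSpace ℝ (Fin 3)) N]
    (β : OneForm 3 N) : Prop :=
  ∀ x₀ y u, coordOne β.val x₀ y u = cos (2 * π * y 2) * u 0 + sin (2 * π * y 2) * u 1

/-- In every chart, the 1-form on the 4-dimensional manifold is `cos(2πy₂) dy₀ + sin(2πy₂) dy₁`. -/
def IsCosSin4 {M : Type} [TopologicalSpace M] [ChartedSpace (EuclideanSpace ℝ (Fin 4)) M]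
    (b : OneForm 4 M) : Prop :=
  ∀ x₀ y u, coordOne b.val x₀ y u = cos (2 * π * y 2) * u 0 + sin (2 * π * y 2) * u 1

/-- In every chart, the 1-form on the 4-dimensional manifold is `dy₃`. -/
def IsDTheta {M : Type} [TopologicalSpace M] [ChartedSpace (EuclideanSpace ℝ (Fin 4)) M]
    (a : OneForm 4 M) : Prop :=
  ∀ x₀ y u, coordOne a.val x₀ y u = u 3

/-- The projection `ℝⁿ → ℝⁿ/ℤⁿ` exhibits `ℝⁿ/ℤⁿ` as the torus. -/
theorem isTorus (n : ℕ) : IsTorus (n := n) (M := QQ (Zn n)) (pr (Zn n)) where
  quotient := isQuotientMap_quotient_mk'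
  eq_iff := by
    intro a b
    rw [pr_eq_iff]
    constructor
    · rintro ⟨_, ⟨m, rfl⟩, rfl⟩
      exact ⟨m, fun i => by simp⟩
    · rintro ⟨m, h⟩
      refine ⟨tr m, ⟨m, rfl⟩, ?_⟩
      apply ext_coord
      intro i
      rw [h i]
      simp
  chart := fun x₀ y => atlas_symm (chart_mem_atlas _ x₀) y

theorem isClosedManifold (n : ℕ) : IsClosedManifold n (QQ (Zn n)) :=
  ⟨inferInstance, inferInstance, inferInstance, inferInstance, inferInstance⟩

end Pool.Agent.Y593.LC
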