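import Mathlib
import Pool.Agent.H660R3.LcsEnd
set_option autoImplicit false
set_option synthInstance.maxHeartbeats 400000
open Set Filter Topology
open scoped ContDiff Manifold

/-!
# `C^k`-small exact lcs perturbations on the 4-torus

The family `λ_ε = e^{εF} (cos(2πz) dx + sin(2πz) dy)` of `Pool.Agent.H660R3.LcsMain` tends to `λ_0`
in `C^k` for every `k`, it consists of exact lcs structures for `0 ≤ ε < ε₀`, and `λ_0` has a Reeb
curve.
-/
namespace Pool.Agent.Y593.LC

open Pool.Agent.H660R3 Pool.Agent.H660R3.LcsEx Pool.Agent.H660R3.Torus Real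

/-! ### Uniform smallness of derivatives -/

theorem contDiff_iter {P E : Type} [NormedAddCommGroup P] [NormedSpace ℝ P]
    [NormedAddCommGroup E] [NormedSpace ℝ E] {H : P × E → ℝ} (hH : ContDiff ℝ ∞ H) (j : ℕ) :
    ContDiff ℝ ∞ (fun p : P × E => iteratedFDeriv ℝ j (fun z => H (p.1, z)) p.2) := by
  induction j with
  | zero =>
    have h : (fun p : P × E => iteratedFDeriv ℝ 0 (fun z => H (p.1, z)) p.2) =
        fun p => (continuousMultilinearCurryFin0 ℝ E ℝ).symm (H p) := by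
      funext p
      rw [iteratedFDeriv_zero_eq_comp]
      rfl
    rw [h]
    exact hH.continuousLinearMap_comp
      ((continuousMultilinearCurryFin0 ℝ E ℝ).symm : _ →L[ℝ] E [×0]→L[ℝ] ℝ)
  | succ j ih =>
    have h : (fun p : P × E => iteratedFDeriv ℝ (j + 1) (fun z => H (p.1, z)) p.2) =
        fun p => (continuousMultilinearCurryLeftEquiv ℝ (fun _ : Fin (j + 1) => E) ℝ).symm
          (fderiv ℝ ((fun (q : P × E) (w : E) => iteratedFDeriv ℝ j (fun z => H (q.1, z)) w) p) p.2) := by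
      funext p
      rw [iteratedFDeriv_succ_eq_comp_left]
      rfl
    rw [h]
    have h2 : (Function.uncurry fun (q : P × E) (w : E) => iteratedFDeriv ℝ j (fun z => H (q.1, z)) w) =
        (fun p : P × E => iteratedFDeriv ℝ j (fun z => H (p.1, z)) p.2) ∘
          fun r : (P × E) × E => (r.1.1, r.2) := by
      funext r
      rfl
    have h3 : ContDiff ℝ ∞ fun p : P × E =>
        fderiv ℝ ((fun (q : P × E) (w : E) => iteratedFDeriv ℝ j (fun z => H (q.1, z)) w) p) p.2 := by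
      refine ContDiff.fderiv (m := ∞) (n := ∞) ?_ contDiff_snd (by simp)
      rw [h2]
      exact ih.comp ((contDiff_fst.comp contDiff_fst).prodMk contDiff_snd)
    exact h3.continuousLinearMap_comp
      ((continuousMultilinearCurryLeftEquiv ℝ (fun _ : Fin (j + 1) => E) ℝ).symm :
        _ →L[ℝ] E [×(j + 1)]→L[ℝ] ℝ)

/-- the unit cube. -/
def cube (n : ℕ) : Set (EE n) := (WithLp.toLp 2 : (Fin n → ℝ) → EE n) '' (Set.pi univ fun _ => Icc (0:ℝ) 1)

theorem isCompact_cube (n : ℕ) : IsCompact (cube n) :=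
  (isCompact_univ_pi fun _ => isCompact_Icc).image (PiLp.continuous_toLp 2 _)

theorem exists_cube {n : ℕ} (y : EE n) : ∃ z ∈ cube n, ∃ m : Fin n → ℤ, y = z + iv m := by
  refine ⟨WithLp.toLp 2 fun i => Int.fract (y i), ⟨_, ?_, rfl⟩, fun i => ⌊y i⌋, ?_⟩
  · intro i _
    exact ⟨Int.fract_nonneg _, (Int.fract_lt_one _).le⟩
  · apply ext_coord
    intro i
    simp

/-- If `H(0, u, ·) = 0` and `H` is smooth and periodic in the last variable, then its derivatives in
the last variable are uniformly small for small values of the first. -/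
theorem unif {n : ℕ} {H : (ℝ × EE n) × EE n → ℝ} (hH : ContDiff ℝ ∞ H)
    (hper : ∀ (p : ℝ × EE n) (m : Fin n → ℤ) z, H (p, z + iv m) = H (p, z))
    (h0 : ∀ u z, H ((0, u), z) = 0) (j : ℕ) {δ : ℝ} (hδ : 0 < δ) :
    ∀ᶠ ε in 𝓝 (0 : ℝ), ∀ u : EE n, ‖u‖ ≤ 1 → ∀ z : EE n,
      ‖iteratedFDeriv ℝ j (fun z => H ((ε, u), z)) z‖ < δ := by
  obtain ⟨N, hN, hc⟩ : ∃ N : (ℝ × EE n) × EE n → ℝ,
      (∀ (ε : ℝ) (u z : EE n), N ((ε, u), z) = ‖iteratedFDeriv ℝ j (fun z => H ((ε, u), z)) z‖) ∧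
      Continuous N :=
    ⟨fun p => ‖iteratedFDeriv ℝ j (fun z => H (p.1, z)) p.2‖, fun _ _ _ => rfl,
      (contDiff_iter hH j).continuous.norm⟩
  have hK : IsCompact (Metric.closedBall (0 : EE n) 1 ×ˢ cube n) :=
    (isCompact_closedBall 0 1).prod (isCompact_cube n)
  have key : ∀ᶠ ε in 𝓝 (0 : ℝ), ∀ w ∈ Metric.closedBall (0 : EE n) 1 ×ˢ cube n,
      N ((ε, w.1), w.2) < δ := by
    refine hK.eventually_forall_of_forall_eventually fun w _ => ?_
    have h1 : Continuous fun q : ℝ × (EE n × EE n) => N ((q.1, q.2.1), q.2.2) :=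
      hc.comp ((continuous_fst.prodMk (continuous_fst.comp continuous_snd)).prodMk
        (continuous_snd.comp continuous_snd))
    have h2 : N ((0, w.1), w.2) < δ := by
      have : (fun z => H ((0, w.1), z)) = fun _ => (0 : ℝ) := by
        funext z
        exact h0 _ _
      rw [hN, this]
      simpa [iteratedFDeriv_fun_zero] using hδ
    exact h1.continuousAt.eventually_lt continuousAt_const h2
  filter_upwards [key] with ε hε u hu y
  obtain ⟨z, hz, m, rfl⟩ := exists_cube y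
  have h1 := hε (u, z) ⟨by simpa using hu, hz⟩
  have h2 : iteratedFDeriv ℝ j (fun z => H ((ε, u), z)) (z + iv m) =
      iteratedFDeriv ℝ j (fun z => H ((ε, u), z)) z := by
    rw [← iteratedFDeriv_comp_add_right]
    simp only [hper]
  rw [h2, ← hN]
  exact h1

/-! ### Closeness of 1-forms -/

/-- The forms `β` and `β'` are `δ`-close in `C^k`: in every chart of the manifold, all the derivatives
of order at most `k` of the components `β(u) - β'(u)`, `|u| ≤ 1`, of their difference have norm at most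
`δ`. -/
def CkClose {n : ℕ} {M : Type} [TopologicalSpace M] [ChartedSpace (EuclideanSpace ℝ (Fin n)) M]
    (k : ℕ) (δ : ℝ) (β β' : OneForm n M) : Prop :=
  ∀ (x₀ : M), ∀ y ∈ (chartAt (EuclideanSpace ℝ (Fin n)) x₀).target,
    ∀ u : EuclideanSpace ℝ (Fin n), ‖u‖ ≤ 1 → ∀ j ≤ k,
      ‖iteratedFDeriv ℝ j (fun z => coordOne β.val x₀ z u - coordOne β'.val x₀ z u) y‖ ≤ δ

theorem contDiff_diff : ContDiff ℝ ∞ (fun p : (ℝ × EE 4) × EE 4 => bl p.1.1 p.2 p.1.2 - bl 0 p.2 p.1.2) := by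
  have hz : ContDiff ℝ ∞ (fun p : (ℝ × EE 4) × EE 4 => 2 * π * p.2 2) :=
    contDiff_const.mul ((pj 2).contDiff.comp contDiff_snd)
  have hF : ContDiff ℝ ∞ (fun p : (ℝ × EE 4) × EE 4 => FF p.2) := FF_smooth.comp contDiff_snd
  have he : ContDiff ℝ ∞ (fun p : (ℝ × EE 4) × EE 4 => p.1.1) := contDiff_fst.comp contDiff_fst
  have h0 : ContDiff ℝ ∞ (fun p : (ℝ × EE 4) × EE 4 => p.1.2 0) :=
    (pj 0).contDiff.comp (contDiff_snd.comp contDiff_fst)
  have h1 : ContDiff ℝ ∞ (fun p : (ℝ × EE 4) × EE 4 => p.1.2 1) :=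
    (pj 1).contDiff.comp (contDiff_snd.comp contDiff_fst)
  have hw : ContDiff ℝ ∞ (fun p : (ℝ × EE 4) × EE 4 =>
      cos (2 * π * p.2 2) * p.1.2 0 + sin (2 * π * p.2 2) * p.1.2 1) :=
    (hz.cos.mul h0).add (hz.sin.mul h1)
  unfold bl
  exact ((he.mul hF).exp.mul hw).sub ((contDiff_const.mul hF).exp.mul hw)

/-- **the forms `λ_ε` tend to `λ_0` in `C^k` for every `k`.** -/
theorem close (k : ℕ) {δ : ℝ} (hδ : 0 < δ) : ∀ᶠ ε in 𝓝 (0 : ℝ), CkClose k δ (lam ε) (lam 0) := by
  have h := fun j : ℕ => unif (n := 4) (H := fun p => bl p.1.1 p.2 p.1.2 - bl 0 p.2 p.1.2)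
    contDiff_diff (fun p m z => by simp only [bl_per]) (fun u z => sub_self _) j hδ
  have h2 : ∀ᶠ ε in 𝓝 (0 : ℝ), ∀ j ∈ Finset.range (k + 1), ∀ u : EE 4, ‖u‖ ≤ 1 → ∀ z : EE 4,
      ‖iteratedFDeriv ℝ j (fun z => bl ε z u - bl 0 z u) z‖ < δ :=
    (Filter.eventually_all_finset _).2 fun j _ => h j
  filter_upwards [h2] with ε hε x₀ y _ u hu j hj
  have h3 : (fun z => coordOne (lam ε).val x₀ z u - coordOne (lam 0).val x₀ z u) =
      fun z => bl ε z u - bl 0 z u := by
    funext z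
    unfold lam
    rw [coordOne_descend, coordOne_descend]
  rw [h3]
  exact (hε j (Finset.mem_range.2 (by omega)) u hu y).le

end Pool.Agent.Y593.LC
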