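import Mathlib
import Pool.Agent.Y593.LC.Close
set_option autoImplicit false
set_option synthInstance.maxHeartbeats 400000
open Set Filter Topology
open scoped ContDiff Manifold

/-!
# The limit structure: an lcs-fication with Reeb curves
-/
namespace Pool.Agent.Y593.LC

open Pool.Agent.H660R3 Pool.Agent.H660R3.LcsEx Pool.Agent.H660R3.Torus Real

/-! ### Curves on the torus -/

section
variable {n : ℕ}

theorem chart_line {γ : ℝ → EE n} (hγ : Continuous γ) (t : ℝ) : ∃ m : Fin n → ℤ,
    γ t + iv m = chartAt (EE n) (pr (Zn n) (γ t)) (pr (Zn n) (γ t)) ∧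
    ∀ᶠ s in 𝓝 t, chartAt (EE n) (pr (Zn n) (γ t)) (pr (Zn n) (γ s)) = γ s + iv m := by
  obtain ⟨_, ⟨m, rfl⟩, h1, h2⟩ := chart_pr_local (Γ := Zn n) (γ t)
  exact ⟨m, h1, hγ.continuousAt.eventually h2⟩

theorem contMDiff_line {γ : ℝ → EE n} (hγ : ContDiff ℝ ∞ γ) :
    ContMDiff 𝓘(ℝ, ℝ) (𝓡 n) ∞ (fun t => pr (Zn n) (γ t)) := by
  intro t
  rw [contMDiffAt_iff]
  refine ⟨((continuous_pr (Zn n)).comp hγ.continuous).continuousAt, ?_⟩
  simp only [modelWithCornersSelf_coe, range_id, contDiffWithinAt_univ]
  obtain ⟨m, -, h⟩ := chart_line hγ.continuous t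
  have h2 : ContDiffAt ℝ ∞ (fun s => γ s + iv m) t := (hγ.add contDiff_const).contDiffAt
  refine h2.congr_of_eventuallyEq ?_
  filter_upwards [h] with s hs
  exact hs

theorem velocity_line {γ : ℝ → EE n} (hγ : ContDiff ℝ ∞ γ) (t : ℝ) :
    velocity (n := n) (fun t => pr (Zn n) (γ t)) t = deriv γ t := by
  obtain ⟨m, -, h⟩ := chart_line hγ.continuous t
  unfold velocity
  have h1 : inChart (n := n) (fun t => pr (Zn n) (γ t)) t =ᶠ[𝓝 t] fun s => γ s + iv m := by
    filter_upwards [h] with s hs
    exact hs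
  rw [h1.deriv_eq, deriv_add_const]

end

/-- the line `t ↦ (t, 0, 0, 0)`. -/
noncomputable def line (t : ℝ) : EE 4 := t • !₂[1, 0, 0, 0]

theorem line_smooth : ContDiff ℝ ∞ line := contDiff_id.smul contDiff_const

theorem deriv_line (t : ℝ) : deriv line t = !₂[1, 0, 0, 0] := by
  have h : HasDerivAt line ((1 : ℝ) • !₂[1, 0, 0, 0]) t := (hasDerivAt_id t).smul_const _
  rw [h.deriv, one_smul]

/-- the curve `x ↦ (x, 0, 0, 0)` on the torus is a Reeb curve of `λ_0`. -/
theorem reeb_zero : IsReebCurve (lam 0) (fun t => pr (Zn 4) (line t)) where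
  smooth := contMDiff_line line_smooth
  periodic t := by
    have h : line (t + 1) = tr (fun i => if i = 0 then 1 else 0) (line t) := by
      rw [tr_apply]
      apply ext_coord
      intro i
      fin_cases i <;> simp [line]
    rw [h]
    exact pr_smul (mem_Zn.2 ⟨_, rfl⟩) _
  kernel t w := by
    obtain ⟨m, h1, -⟩ := chart_line line_smooth.continuous t
    rw [lam_d]
    simp only
    rw [← h1, velocity_line line_smooth, deriv_line]
    have h2 : (line t + iv m) 2 = m 2 := by simp [line]
    rw [h2]
    have h3 : sin (2 * π * m 2) = 0 := by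
      have h4 : 2 * π * (m 2 : ℝ) = ((2 * m 2 : ℤ) : ℝ) * π := by push_cast; ring
      rw [h4, Real.sin_int_mul_pi]
    rw [h3]
    simp
  pos t := by
    obtain ⟨m, h1, -⟩ := chart_line line_smooth.continuous t
    change 0 < bl 0 (chartAt (EE 4) (pr (Zn 4) (line t)) (pr (Zn 4) (line t))) _
    rw [← h1, velocity_line line_smooth, deriv_line]
    have h2 : (line t + iv m) 2 = m 2 := by simp [line]
    unfold bl
    rw [h2]
    have h4 : cos (2 * π * m 2) = 1 := by
      rw [mul_comm, Real.cos_int_mul_two_pi]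
    rw [h4]
    simp

/-! ### Exactness, also for `ε = 0` -/

theorem exact_zero : IsExactLcs (lam 0) alp where
  closed := alp_d
  nondeg p u h := by
    set q := chartAt (EE 4) p p with hq
    set c := cos (2 * π * q 2) with hc
    set s := sin (2 * π * q 2) with hs
    have hcs : s ^ 2 + c ^ 2 = 1 := sin_sq_add_cos_sq _
    have hpi := pi_pos
    have key : ∀ v : EE 4, 2 * π * u 2 * (-s * v 0 + c * v 1) - 2 * π * v 2 * (-s * u 0 + c * u 1) -
        (u 3 * (c * v 0 + s * v 1) - v 3 * (c * u 0 + s * u 1)) = 0 := by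
      intro v
      have h1 := h v
      unfold lcsForm at h1
      rw [lam_d] at h1
      have ha : ∀ w : EE 4, alp.val p w = w 3 := fun w => rfl
      have hl : ∀ w : EE 4, (lam 0).val p w = exp (0 * FF q) * (c * w 0 + s * w 1) := fun w => rfl
      rw [ha, ha, hl, hl] at h1
      simp only [← hq, ← hc, ← hs, zero_mul, exp_zero, one_mul, zero_add] at h1
      linear_combination h1
    have k3 := key e3
    simp only [e3] at k3
    have hl0 : c * u 0 + s * u 1 = 0 := by
      simp at k3
      linear_combination k3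
    have k2 := key e2
    simp only [e2] at k2
    have hb0 : -s * u 0 + c * u 1 = 0 := by
      simp at k2
      linarith
    have hu0 : u 0 = 0 := by linear_combination c * hl0 - s * hb0 - u 0 * hcs
    have hu1 : u 1 = 0 := by linear_combination s * hl0 + c * hb0 - u 1 * hcs
    have ka := key !₂[-s, c, 0, 0]
    have hu2 : u 2 = 0 := by
      simp [hu0, hu1] at ka
      have : 2 * π * u 2 = 0 := by
        linear_combination ka - (2 * π * u 2) * hcs
      rcases mul_eq_zero.1 this with h3 | h3
      · exact absurd h3 (by positivity)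
      · exact h3
    have kb := key !₂[c, s, 0, 0]
    have hu3 : u 3 = 0 := by
      simp [hu0, hu1, hu2] at kb
      rcases kb with kb | kb
      · exact kb
      · exfalso
        nlinarith
    exact ext4 hu0 hu1 hu2 hu3

end Pool.Agent.Y593.LC
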