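import Mathlib
import Pool.Agent.Y593.LC.Reeb
set_option autoImplicit false
set_option synthInstance.maxHeartbeats 400000
open Set Filter Topology
open scoped ContDiff Manifold

/-!
# The contact 3-torus
-/
namespace Pool.Agent.Y593.LC

open Pool.Agent.H660R3 Pool.Agent.H660R3.LcsEx Pool.Agent.H660R3.Torus Real

/-- `β` is a contact form on the 3-manifold `N`: `dβ` is non-degenerate on the kernel of `β`, that is,
no nonzero `u` with `β(u) = 0` has `dβ(u, v) = 0` for all `v` with `β(v) = 0`. (This implies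
`β_p ≠ 0`, as a 2-form on a 3-dimensional space is degenerate.) -/
def IsContact {N : Type} [TopologicalSpace N] [ChartedSpace (EuclideanSpace ℝ (Fin 3)) N]
    (β : OneForm 3 N) : Prop :=
  ∀ p u, β.val p u = 0 → (∀ v, β.val p v = 0 → β.d p u v = 0) → u = 0

/-- `cos(2πz) dx + sin(2πz) dy` on `ℝ³` -/
noncomputable def b3 (q u : EE 3) : ℝ := cos (2 * π * q 2) * u 0 + sin (2 * π * q 2) * u 1

/-- coordinate functional. -/
noncomputable def pk (i : Fin 3) : EE 3 →L[ℝ] ℝ := EuclideanSpace.proj i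

theorem b3_fderiv (q u v : EE 3) : fderiv ℝ (fun y => b3 y v) q u =
    2 * π * u 2 * (-sin (2 * π * q 2) * v 0 + cos (2 * π * q 2) * v 1) := by
  have hz : HasFDerivAt (fun y : EE 3 => 2 * π * y 2) ((2 * π) • pk 2) q :=
    ((pk 2).hasFDerivAt (x := q)).const_mul (2 * π)
  have h4 : HasFDerivAt (fun y => b3 y v) _ q :=
    (hz.cos.mul_const (v 0)).add (hz.sin.mul_const (v 1))
  rw [h4.fderiv]
  simp [pk]
  ring

/-- the contact form of the 3-torus. -/
noncomputable def beta : OneForm 3 (QQ (Zn 3)) :=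
  descendOne b3
    (fun m q u => by
      unfold b3
      have : 2 * π * (q + iv m) 2 = 2 * π * q 2 + m 2 * (2 * π) := by simp; ring
      rw [this, cos_add_int_mul_two_pi, sin_add_int_mul_two_pi])
    (fun q => ⟨fun u v => by simp only [b3, PiLp.add_apply]; ring,
      fun c u => by simp only [b3, PiLp.smul_apply, smul_eq_mul]; ring⟩)
    (fun u => by
      unfold b3
      have h1 : ContDiff ℝ ∞ (fun y : EE 3 => 2 * π * y 2) := contDiff_const.mul (pk 2).contDiff
      exact (h1.cos.mul contDiff_const).add (h1.sin.mul contDiff_const))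

theorem beta_contact : IsContact beta := by
  intro p u h0 h
  set q := chartAt (EE 3) p p with hq
  set c := cos (2 * π * q 2) with hc
  set s := sin (2 * π * q 2) with hs
  have hcs : s ^ 2 + c ^ 2 = 1 := sin_sq_add_cos_sq _
  have hpi := pi_pos
  have h0' : c * u 0 + s * u 1 = 0 := h0
  have hd : ∀ v : EE 3, c * v 0 + s * v 1 = 0 →
      2 * π * u 2 * (-s * v 0 + c * v 1) - 2 * π * v 2 * (-s * u 0 + c * u 1) = 0 := by
    intro v hv
    have h1 := h v hv
    unfold beta at h1
    rw [descendOne_d, b3_fderiv, b3_fderiv] at h1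
    exact h1
  have k1 := hd !₂[-s, c, 0] (by simp; ring)
  have k2 := hd !₂[0, 0, 1] (by simp)
  have hu2 : u 2 = 0 := by
    simp at k1
    rcases k1 with k1 | k1
    · exact k1
    · exfalso
      nlinarith
  have hb0 : -s * u 0 + c * u 1 = 0 := by
    have e20 : (!₂[0, 0, 1] : EE 3) 0 = 0 := by simp
    have e21 : (!₂[0, 0, 1] : EE 3) 1 = 0 := by simp
    have e22 : (!₂[0, 0, 1] : EE 3) 2 = 1 := by simp
    rw [e20, e21, e22] at k2
    have : 2 * π * (-s * u 0 + c * u 1) = 0 := by linear_combination -k2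
    rcases mul_eq_zero.1 this with h3 | h3
    · exact absurd h3 (by positivity)
    · exact h3
  have hu0 : u 0 = 0 := by linear_combination c * h0' - s * hb0 - u 0 * hcs
  have hu1 : u 1 = 0 := by linear_combination s * h0' + c * hb0 - u 1 * hcs
  ext i
  fin_cases i
  · exact hu0
  · exact hu1
  · exact hu2

/-- constants -/
theorem exists_eps : ∃ ε₀ : ℝ, 0 < ε₀ ∧ ∀ ε, 0 < ε → ε < ε₀ →
    IsExactLcs (lam ε) alp ∧ ∀ o : ℝ → QQ (Zn 4), ¬ IsReebCurve (lam ε) o := by
  obtain ⟨K, hK1, hK⟩ := Pool.Agent.H660R3.Stair.ee_bounded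
  refine ⟨1 / (16 * (1 + K)), by positivity, fun ε h0 h1 => ?_⟩
  have hK0 : 0 < 1 + K := by linarith
  rw [lt_div_iff₀ (by positivity)] at h1
  refine ⟨isExactLcs h0 hK ?_, no_reeb h0 hK1 hK ?_⟩
  · nlinarith
  · nlinarith

end Pool.Agent.Y593.LC
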