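import Mathlib
import Pool.Agent.H660R3.LcsFun
import Pool.Agent.H660R3.Torus
set_option autoImplicit false
open scoped ContDiff

/-!
# Scale invariant forms on `ℝ⁴ ∖ 0`
-/
namespace Pool.Agent.Y593.LC.HC

open Pool.Agent.H660R3 Pool.Agent.H660R3.Stair Real

/-- `|y|²` -/
noncomputable def n2 (y : EE 4) : ℝ := y 0 ^ 2 + y 1 ^ 2 + y 2 ^ 2 + y 3 ^ 2

/-- `⟨y, u⟩` -/
noncomputable def ip (y u : EE 4) : ℝ := y 0 * u 0 + y 1 * u 1 + y 2 * u 2 + y 3 * u 3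

/-- `⟨Jy, u⟩`, with `J(y₀, y₁, y₂, y₃) = (-y₁, y₀, -y₃, y₂)` -/
noncomputable def jp (y u : EE 4) : ℝ := y 0 * u 1 - y 1 * u 0 + (y 2 * u 3 - y 3 * u 2)

/-- `θ = log |y| / log 2` -/
noncomputable def th (y : EE 4) : ℝ := Real.log (n2 y) / (2 * Real.log 2)

/-- the function `F` -/
noncomputable def WW (y : EE 4) : ℝ := ∑ i : Fin 4, y i ^ 2 / n2 y * hs (th y - (i : ℕ) / 4)

/-- its differential -/
noncomputable def dW (y u : EE 4) : ℝ := ∑ i : Fin 4,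
  ((2 * y i * u i / n2 y - 2 * y i ^ 2 * ip y u / n2 y ^ 2) * hs (th y - (i : ℕ) / 4) +
    y i ^ 2 / n2 y * ((1 - ee (th y - (i : ℕ) / 4)) * (ip y u / (Real.log 2 * n2 y))))

/-- `λ_ε = e^{εF} ⟨Jy, dy⟩ / |y|²` -/
noncomputable def bl (ε : ℝ) (y u : EE 4) : ℝ := exp (ε * WW y) * (jp y u / n2 y)

/-- `α = d log |y| / log 2` -/
noncomputable def al (y u : EE 4) : ℝ := ip y u / (Real.log 2 * n2 y)

/-- `d(⟨Jy, dy⟩ / |y|²)(u, v)` -/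
noncomputable def d0 (y u v : EE 4) : ℝ :=
  2 * jp u v / n2 y - 2 * (ip y u * jp y v - ip y v * jp y u) / n2 y ^ 2

end Pool.Agent.Y593.LC.HC
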