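import Pool.Agent.Y888.HF1
import Pool.Agent.Y604.HF2
import Pool.Agent.Y480.HF3
import Pool.Agent.Y77.HF4
set_option autoImplicit false
open Set Filter Topology
open scoped ContDiff

/-!
# Calculus on `ℝ⁴ ∖ 0`: the results of helper888, helper604, helper480 and helper77
-/
namespace Pool.Agent.Y593.LC.HS

open Pool.Agent.H660R3 Pool.Agent.H660R3.Stair Real HC

theorem n2_pos {y : EE 4} (h : y ≠ 0) : 0 < n2 y := Pool.Agent.Y888.HF1.n2_pos h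
theorem n2_smul (c : ℝ) (y : EE 4) : n2 (c • y) = c ^ 2 * n2 y := Pool.Agent.Y888.HF1.n2_smul c y
theorem WW_scale (m : ℤ) {y : EE 4} (h : y ≠ 0) : WW ((2 : ℝ) ^ m • y) = WW y :=
  Pool.Agent.Y888.HF1.WW_scale m h
theorem bl_scale (ε : ℝ) (m : ℤ) {y : EE 4} (h : y ≠ 0) (u : EE 4) :
    bl ε ((2 : ℝ) ^ m • y) ((2 : ℝ) ^ m • u) = bl ε y u := Pool.Agent.Y888.HF1.bl_scale ε m h u
theorem al_scale (m : ℤ) {y : EE 4} (h : y ≠ 0) (u : EE 4) :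
    al ((2 : ℝ) ^ m • y) ((2 : ℝ) ^ m • u) = al y u := Pool.Agent.Y888.HF1.al_scale m h u
theorem bl_d (ε : ℝ) {y : EE 4} (h : y ≠ 0) (u v : EE 4) :
    fderiv ℝ (fun z => bl ε z v) y u - fderiv ℝ (fun z => bl ε z u) y v =
      exp (ε * WW y) * (ε * (dW y u * (jp y v / n2 y) - dW y v * (jp y u / n2 y)) + d0 y u v) :=
  Pool.Agent.Y888.HF1.bl_d ε h u v
theorem al_d {y : EE 4} (h : y ≠ 0) (u v : EE 4) :
    fderiv ℝ (fun z => al z v) y u - fderiv ℝ (fun z => al z u) y v = 0 :=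
  Pool.Agent.Y888.HF1.al_d h u v
theorem bl_contDiffAt {y : EE 4} (h : y ≠ 0) (ε : ℝ) (u : EE 4) :
    ContDiffAt ℝ ∞ (fun z => bl ε z u) y := Pool.Agent.Y604.HF2.bl_contDiffAt h ε u
theorem al_contDiffAt {y : EE 4} (h : y ≠ 0) (u : EE 4) : ContDiffAt ℝ ∞ (fun z => al z u) y :=
  Pool.Agent.Y604.HF2.al_contDiffAt h u
theorem bl_close (k : ℕ) {δ : ℝ} (hδ : 0 < δ) : ∀ᶠ ε in 𝓝 (0 : ℝ), ∀ y : EE 4, 1 ≤ ‖y‖ → ‖y‖ ≤ 2 →
    ∀ u : EE 4, ‖u‖ ≤ 1 → ∀ j ≤ k,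
      ‖iteratedFDeriv ℝ j (fun z => bl ε z u - bl 0 z u) y‖ ≤ δ := Pool.Agent.Y604.HF2.bl_close k hδ
theorem nondeg {ε K : ℝ} (hε : 0 ≤ ε) (hK : ∀ t, |ee t| ≤ K) (hεK : ε * (1 + K) < 1) {y : EE 4}
    (hy : y ≠ 0) (u : EE 4)
    (h : ∀ v, ε * (dW y u * (jp y v / n2 y) - dW y v * (jp y u / n2 y)) + d0 y u v -
      (al y u * (jp y v / n2 y) - al y v * (jp y u / n2 y)) = 0) : u = 0 :=
  Pool.Agent.Y480.HF3.nondeg hε hK hεK hy u h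

/-- the `i`-th term -/
noncomputable def tm (i : Fin 4) (y : EE 4) : ℝ := y i ^ 2 / n2 y * ee (th y - (i : ℕ) / 4)

/-- the index of the partner coordinate -/
def pa : Fin 4 → Fin 4 := ![1, 0, 3, 2]
/-- its sign -/
def sg : Fin 4 → ℝ := ![1, -1, 1, -1]

theorem reeb_sum {ε : ℝ} (hε : 0 < ε) {y : EE 4} (hy : y ≠ 0) (u : EE 4) (hu : 0 < jp y u)
    (h : ∀ v, ε * (dW y u * (jp y v / n2 y) - dW y v * (jp y u / n2 y)) + d0 y u v = 0) :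
    ∑ i : Fin 4, tm i y = 1 := Pool.Agent.Y77.HF4.reeb_sum hε hy u hu h

theorem reeb_turn {ε K : ℝ} (hε : 0 < ε) (hK1 : 1 ≤ K) (hK : ∀ t, |ee t| ≤ K) (hεK : 100 * ε * K < 1)
    {y : EE 4} (hy : y ≠ 0) (u : EE 4) (hu : 0 < jp y u)
    (h : ∀ v, ε * (dW y u * (jp y v / n2 y) - dW y v * (jp y u / n2 y)) + d0 y u v = 0)
    (i : Fin 4) (hi : tm i y = 1) :
    0 < sg i * (y i * u (pa i) - y (pa i) * u i) :=
  Pool.Agent.Y77.HF4.reeb_turn hε hK1 hK hεK hy u hu h i hi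

end Pool.Agent.Y593.LC.HS
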