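import Mathlib
import Pool.Agent.H660R3.Torus
set_option autoImplicit false
set_option synthInstance.maxHeartbeats 400000
set_option linter.unusedSectionVars false
open Set Filter Topology
open scoped ContDiff Manifold

/-!
# The Hopf manifold `(ℝⁿ ∖ 0) / (x ~ 2x)`, diffeomorphic to `S^(n-1) × S¹`
-/
namespace Pool.Agent.Y593.LC.HM

open Pool.Agent.H660R3

/-- `ℝⁿ ∖ 0`. -/
def Om (n : ℕ) : TopologicalSpace.Opens (EE n) := ⟨{0}ᶜ, isOpen_compl_singleton⟩

/-- the infinite cyclic group. -/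
abbrev GZ : Type := Multiplicative ℤ

variable {n : ℕ}

theorem two_ne (m : ℤ) : (2 : ℝ) ^ m ≠ 0 := zpow_ne_zero _ two_ne_zero

theorem Om_ne (x : Om n) : (x : EE n) ≠ 0 := x.2

/-- the integer `m` acts as multiplication by `2 ^ m`. -/
noncomputable instance : MulAction GZ (Om n) where
  smul g x := ⟨(2 : ℝ) ^ (Multiplicative.toAdd g) • (x : EE n), smul_ne_zero (two_ne _) (Om_ne x)⟩
  one_smul x := by
    apply Subtype.ext
    change (2 : ℝ) ^ (0 : ℤ) • (x : EE n) = x
    simp
  mul_smul g h x := by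
    apply Subtype.ext
    change (2 : ℝ) ^ (Multiplicative.toAdd g + Multiplicative.toAdd h) • (x : EE n) =
      (2 : ℝ) ^ (Multiplicative.toAdd g) • ((2 : ℝ) ^ (Multiplicative.toAdd h) • (x : EE n))
    rw [zpow_add₀ two_ne_zero, mul_smul]

theorem smul_val (g : GZ) (x : Om n) : ((g • x : Om n) : EE n) = (2 : ℝ) ^ (Multiplicative.toAdd g) • (x : EE n) := rfl

instance : ContinuousConstSMul GZ (Om n) where
  continuous_const_smul g := by
    refine Continuous.subtype_mk (f := fun x : Om n => (2 : ℝ) ^ (Multiplicative.toAdd g) • (x : EE n)) ?_ _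
    have h1 : Continuous fun x : Om n => (x : EE n) := continuous_subtype_val
    exact h1.const_smul ((2 : ℝ) ^ (Multiplicative.toAdd g))

theorem log_smul (g : GZ) (x : Om n) : Real.log ‖((g • x : Om n) : EE n)‖ =
    (Multiplicative.toAdd g : ℤ) * Real.log 2 + Real.log ‖(x : EE n)‖ := by
  rw [smul_val, norm_smul, Real.log_mul (norm_ne_zero_iff.2 (two_ne _)) (norm_ne_zero_iff.2 (Om_ne x))]
  congr 1
  rw [norm_zpow, Real.norm_ofNat, Real.log_zpow]

theorem cont_log : Continuous fun x : Om n => Real.log ‖(x : EE n)‖ :=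
  (continuous_norm.comp continuous_subtype_val).log fun x => norm_ne_zero_iff.2 (Om_ne x)

instance : ProperlyDiscontinuousSMul GZ (Om n) where
  finite_disjoint_inter_image {K L} hK hL := by
    obtain ⟨R1, hR1⟩ := hK.exists_bound_of_continuousOn (cont_log (n := n)).continuousOn
    obtain ⟨R2, hR2⟩ := hL.exists_bound_of_continuousOn (cont_log (n := n)).continuousOn
    obtain ⟨N, hN⟩ := exists_nat_ge ((R1 + R2) / Real.log 2)
    have hfin : (Set.Icc (-(N : ℤ)) (N : ℤ)).Finite := Set.finite_Icc _ _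
    refine Set.Finite.of_finite_image (f := fun g : GZ => (Multiplicative.toAdd g : ℤ)) ?_
      (Multiplicative.toAdd.injective.injOn)
    refine hfin.subset ?_
    rintro _ ⟨g, ⟨y, ⟨x, hx, rfl⟩, hy⟩, rfl⟩
    have h1 := hR1 x hx
    have h2 := hR2 _ hy
    have h3 := log_smul g x
    have h2l : 0 < Real.log 2 := Real.log_pos one_lt_two
    rw [Real.norm_eq_abs] at h1 h2
    have h4 : |((Multiplicative.toAdd g : ℤ) : ℝ) * Real.log 2| ≤ R1 + R2 := by
      have : ((Multiplicative.toAdd g : ℤ) : ℝ) * Real.log 2 =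
        Real.log ‖((g • x : Om n) : EE n)‖ - Real.log ‖(x : EE n)‖ := by rw [h3]; ring
      rw [this]
      refine (abs_sub _ _).trans ?_
      have h2' : |Real.log ‖((g • x : Om n) : EE n)‖| ≤ R2 := h2
      linarith
    rw [abs_mul, abs_of_pos h2l, ← le_div_iff₀ h2l] at h4
    have h5 := h4.trans hN
    have h6 : |(Multiplicative.toAdd g : ℤ)| ≤ (N : ℤ) := by exact_mod_cast h5
    exact ⟨(abs_le.1 h6).1, (abs_le.1 h6).2⟩

instance : IsCancelSMul GZ (Om n) := by
  rw [isCancelSMul_iff_eq_one_of_smul_eq]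
  intro g x h
  have h1 := log_smul g x
  rw [h] at h1
  have h2l : 0 < Real.log 2 := Real.log_pos one_lt_two
  have h2 : ((Multiplicative.toAdd g : ℤ) : ℝ) * Real.log 2 = 0 := by linarith
  rcases mul_eq_zero.1 h2 with h3 | h3
  · have : (Multiplicative.toAdd g : ℤ) = 0 := by exact_mod_cast h3
    exact Multiplicative.toAdd.injective this
  · exact absurd h3 h2l.ne'

instance : LocallyCompactSpace (Om n) := (Om n).isOpen.locallyCompactSpace

variable (n) in
/-- The Hopf manifold `(ℝⁿ ∖ 0) / (x ~ 2x)`. -/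
abbrev Hopf : Type := MulAction.orbitRel.Quotient GZ (Om n)

noncomputable example : ChartedSpace (EE n) (Hopf n) := inferInstance
example : T2Space (Hopf n) := inferInstance

instance : SecondCountableTopology (Hopf n) :=
  ContinuousConstSMul.secondCountableTopology (Γ := GZ) (T := Om n)

/-- the class of a point of `ℝⁿ ∖ 0`. -/
noncomputable def mk (x : Om n) : Hopf n := Quotient.mk _ x

theorem mk_surj : Function.Surjective (mk (n := n)) := Quotient.mk_surjective

theorem continuous_mk : Continuous (mk (n := n)) := continuous_quotient_mk'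

theorem mk_eq_iff {a b : Om n} : mk a = mk b ↔ ∃ m : ℤ, (2 : ℝ) ^ m • (a : EE n) = b := by
  unfold mk
  rw [Quotient.eq'', MulAction.orbitRel_apply, MulAction.mem_orbit_iff]
  constructor
  · rintro ⟨g, h⟩
    refine ⟨-Multiplicative.toAdd g, ?_⟩
    rw [← h, smul_val, smul_smul, ← zpow_add₀ two_ne_zero]
    simp
  · rintro ⟨m, h⟩
    refine ⟨Multiplicative.ofAdd (-m), Subtype.ext ?_⟩
    rw [smul_val, ← h, smul_smul]
    change ((2 : ℝ) ^ (-m) * (2 : ℝ) ^ m) • (a : EE n) = a
    rw [← zpow_add₀ two_ne_zero]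
    simp

/-- the projection `ℝⁿ ∖ 0 → (ℝⁿ ∖ 0) / (x ~ 2x)`, with an arbitrary value at `0`. -/
noncomputable def prj [Nonempty (Om n)] (y : EE n) : Hopf n :=
  open Classical in if h : y ≠ 0 then mk ⟨y, h⟩ else mk (Classical.arbitrary (Om n))

variable [Nonempty (Om n)]

theorem prj_of {y : EE n} (h : y ≠ 0) : prj y = mk (⟨y, h⟩ : Om n) := by
  unfold prj
  rw [dif_pos h]

theorem prj_val (x : Om n) : prj (x : EE n) = mk x := prj_of (Om_ne x)

theorem prj_eq_iff {a b : EE n} (ha : a ≠ 0) (hb : b ≠ 0) : prj a = prj b ↔ ∃ m : ℤ, (2 : ℝ) ^ m • a = b := by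
  rw [prj_of ha, prj_of hb, mk_eq_iff]

theorem prj_smul {a : EE n} (ha : a ≠ 0) (m : ℤ) : prj ((2 : ℝ) ^ m • a) = prj a :=
  ((prj_eq_iff ha (smul_ne_zero (two_ne m) ha)).2 ⟨m, rfl⟩).symm

theorem prj_cont {y : EE n} (h : y ≠ 0) : ContinuousAt prj y := by
  have h0 : IsOpenEmbedding (Subtype.val : Om n → EE n) := (Om n).isOpen.isOpenEmbedding_subtypeVal
  have h1 : ContinuousAt ((prj (n := n)) ∘ (Subtype.val : Om n → EE n)) ⟨y, h⟩ := by
    have : (prj (n := n)) ∘ (Subtype.val : Om n → EE n) = mk := by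
      funext x
      exact prj_val x
    rw [this]
    exact continuous_mk.continuousAt
  exact (h0.continuousAt_iff (x := ⟨y, h⟩)).1 h1

omit [Nonempty (Om n)] in
theorem om_coe (x z : Om n) : chartAt (EE n) x z = (z : EE n) := rfl

omit [Nonempty (Om n)] in
theorem om_source (x : Om n) : (chartAt (EE n) x).source = univ := by
  rw [TopologicalSpace.Opens.chartAt_eq, OpenPartialHomeomorph.subtypeRestr_source]
  simp

omit [Nonempty (Om n)] in
theorem om_target (x : Om n) : (chartAt (EE n) x).target = {y | y ≠ 0} := by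
  have h1 := (chartAt (EE n) x).image_source_eq_target
  rw [← h1, om_source]
  ext y
  constructor
  · rintro ⟨z, -, rfl⟩
    rw [om_coe]
    exact z.2
  · intro hy
    exact ⟨⟨y, hy⟩, mem_univ _, om_coe _ _⟩

omit [Nonempty (Om n)] in
theorem om_symm (x : Om n) {y : EE n} (hy : y ≠ 0) : (chartAt (EE n) x).symm y = ⟨y, hy⟩ := by
  apply Subtype.ext
  have h : y ∈ (chartAt (EE n) x).target := by rw [om_target]; exact hy
  have h2 := (chartAt (EE n) x).right_inv h
  rwa [om_coe] at h2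

omit [Nonempty (Om n)] in
/-- charts of the atlas take nonzero values. -/
theorem target_ne {e : OpenPartialHomeomorph (Hopf n) (EE n)} (he : e ∈ atlas (EE n) (Hopf n))
    {y : EE n} (hy : y ∈ e.target) : y ≠ 0 := by
  obtain ⟨q, rfl⟩ := he
  have h1 := hy.1
  rw [om_target] at h1
  exact h1

theorem atlas_symm {e : OpenPartialHomeomorph (Hopf n) (EE n)} (he : e ∈ atlas (EE n) (Hopf n))
    {y : EE n} (hy : y ≠ 0) : e.symm y = prj y := by
  obtain ⟨q, rfl⟩ := he
  rw [prj_of hy]
  simp [mk, IsLocalHomeomorph.localInverseAt_symm]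
  rw [om_symm _ hy]

theorem prj_chart {e : OpenPartialHomeomorph (Hopf n) (EE n)} (he : e ∈ atlas (EE n) (Hopf n))
    {q : Hopf n} (hq : q ∈ e.source) : prj (e q) = q := by
  rw [← atlas_symm he (target_ne he (e.map_source hq)), e.left_inv hq]

theorem chart_injOn {e : OpenPartialHomeomorph (Hopf n) (EE n)} (he : e ∈ atlas (EE n) (Hopf n))
    {a b : EE n} (ha : a ∈ e.target) (hb : b ∈ e.target) (h : prj a = prj b) : a = b := by
  rw [← e.right_inv ha, ← e.right_inv hb, atlas_symm he (target_ne he ha),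
    atlas_symm he (target_ne he hb), h]

/-- two charts differ locally by a power of two. -/
theorem deck {e e' : OpenPartialHomeomorph (Hopf n) (EE n)} (he : e ∈ atlas (EE n) (Hopf n))
    (he' : e' ∈ atlas (EE n) (Hopf n)) {q : Hopf n} (hq : q ∈ e.source) (hq' : q ∈ e'.source) :
    ∃ m : ℤ, (2 : ℝ) ^ m • e q = e' q ∧ ∀ᶠ p in 𝓝 q, e' p = (2 : ℝ) ^ m • e p := by
  have hne := target_ne he (e.map_source hq)
  obtain ⟨m, h⟩ := (prj_eq_iff hne (target_ne he' (e'.map_source hq'))).1
    ((prj_chart he hq).trans (prj_chart he' hq').symm)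
  refine ⟨m, h, ?_⟩
  have hc : ContinuousAt (fun p => (2 : ℝ) ^ m • e p) q :=
    (continuous_const_smul ((2 : ℝ) ^ m)).continuousAt.comp (e.continuousAt hq)
  have h1 : ∀ᶠ p in 𝓝 q, (2 : ℝ) ^ m • e p ∈ e'.target := by
    apply hc.eventually_mem
    rw [h]
    exact e'.open_target.mem_nhds (e'.map_source hq')
  filter_upwards [h1, e.open_source.mem_nhds hq, e'.open_source.mem_nhds hq'] with p hp1 hp2 hp3
  apply chart_injOn he' (e'.map_source hp3) hp1
  rw [prj_chart he' hp3, prj_smul (target_ne he (e.map_source hp2)), prj_chart he hp2]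

instance : IsManifold (𝓡 n) ∞ (Hopf n) := by
  apply isManifold_of_contDiffOn
  intro e e' he he' y hy
  simp only [modelWithCornersSelf_coe, modelWithCornersSelf_coe_symm, Function.comp_id,
    Function.id_comp, preimage_id, range_id, inter_univ] at hy ⊢
  obtain ⟨hy1, hy2⟩ : y ∈ e.target ∧ e.symm y ∈ e'.source := by
    simpa using hy
  obtain ⟨m, h1, h2⟩ := deck he he' (e.map_target hy1) hy2
  have h3 : ∀ᶠ z in 𝓝 y, e' (e.symm z) = (2 : ℝ) ^ m • z := by
    have := (e.continuousAt_symm hy1).eventually h2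
    filter_upwards [this, e.open_target.mem_nhds hy1] with z hz hz1
    rw [hz, e.right_inv hz1]
  apply ContDiffAt.contDiffWithinAt
  have h4 : ContDiffAt ℝ ∞ (fun z : EE n => (2 : ℝ) ^ m • z) y := contDiffAt_id.const_smul _
  exact h4.congr_of_eventuallyEq (by
    filter_upwards [h3] with z hz
    simpa using hz)

/-- every point can be scaled to the shell. -/
theorem exists_shell {y : EE n} (hy : y ≠ 0) : ∃ m : ℤ, 1 ≤ ‖(2 : ℝ) ^ m • y‖ ∧ ‖(2 : ℝ) ^ m • y‖ ≤ 2 := by
  obtain ⟨m, h1, h2⟩ := exists_mem_Ico_zpow (x := ‖y‖) (y := 2) (norm_pos_iff.2 hy) one_lt_two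
  refine ⟨-m, ?_, ?_⟩
  · rw [norm_smul, norm_zpow, Real.norm_ofNat, zpow_neg, inv_mul_eq_div, le_div_iff₀ (by positivity)]
    simpa using h1
  · rw [norm_smul, norm_zpow, Real.norm_ofNat, zpow_neg, inv_mul_eq_div, div_le_iff₀ (by positivity)]
    have h3 : (2 : ℝ) ^ (m + 1) = 2 * 2 ^ m := by rw [zpow_add₀ two_ne_zero]; ring
    rw [h3] at h2
    exact h2.le

theorem isCompact_shell : IsCompact {y : EE n | 1 ≤ ‖y‖ ∧ ‖y‖ ≤ 2} := by
  have h1 : {y : EE n | 1 ≤ ‖y‖ ∧ ‖y‖ ≤ 2} = Metric.closedBall 0 2 ∩ {y | 1 ≤ ‖y‖} := by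
    ext y
    simp [and_comm]
  rw [h1]
  exact (isCompact_closedBall 0 2).inter_right (isClosed_le continuous_const continuous_norm)

instance : CompactSpace (Hopf n) := by
  refine ⟨?_⟩
  have h1 : (univ : Set (Hopf n)) = prj '' {y : EE n | 1 ≤ ‖y‖ ∧ ‖y‖ ≤ 2} := by
    symm
    rw [eq_univ_iff_forall]
    intro q
    obtain ⟨y, rfl⟩ := mk_surj q
    obtain ⟨m, hm⟩ := exists_shell (Om_ne y)
    refine ⟨_, hm, ?_⟩
    rw [prj_smul (Om_ne y), prj_val]
  rw [h1]
  refine isCompact_shell.image_of_continuousOn fun y hy => (prj_cont ?_).continuousWithinAt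
  rintro rfl
  have := hy.1
  norm_num at this

theorem connected_of (h : 1 < n) : ConnectedSpace (Hopf n) := by
  have h1 : IsConnected ({0}ᶜ : Set (EE n)) := by
    apply isConnected_compl_singleton_of_one_lt_rank
    rw [← Module.finrank_eq_rank]
    simp
    exact_mod_cast h
  have : ConnectedSpace (Om n) := isConnected_iff_connectedSpace.1 h1
  exact (mk_surj (n := n)).connectedSpace continuous_mk

end Pool.Agent.Y593.LC.HM
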