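import Mathlib
import Pool.Agent.H660R3.LcsDefs
import Pool.Agent.Y593.LC.HopfM
set_option autoImplicit false
set_option synthInstance.maxHeartbeats 400000
set_option linter.unusedSectionVars false
open Set Filter Topology
open scoped ContDiff Manifold

/-!
# Forms and curves on the Hopf manifold
-/
namespace Pool.Agent.Y593.LC.HM

open Pool.Agent.H660R3

variable {n : ℕ} [Nonempty (Om n)]

/-- local form of the chart at `prj y` composed with the projection. -/
theorem chart_prj_local {y : EE n} (hy : y ≠ 0) :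
    ∃ m : ℤ, (2 : ℝ) ^ m • y = chartAt (EE n) (prj y) (prj y) ∧
    ∀ᶠ z in 𝓝 y, chartAt (EE n) (prj y) (prj z) = (2 : ℝ) ^ m • z := by
  set q : Hopf n := prj y with hq
  have hs := mem_chart_source (EE n) q
  have ht := (chartAt (EE n) q).map_source hs
  obtain ⟨m, h⟩ := (prj_eq_iff hy (target_ne (chart_mem_atlas (EE n) q) ht)).1
    (hq.symm.trans (prj_chart (chart_mem_atlas (EE n) q) hs).symm)
  refine ⟨m, h, ?_⟩
  have hc : ContinuousAt (fun z : EE n => (2 : ℝ) ^ m • z) y :=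
    (continuous_const_smul ((2 : ℝ) ^ m)).continuousAt
  have h1 : ∀ᶠ z in 𝓝 y, (2 : ℝ) ^ m • z ∈ (chartAt (EE n) q).target := by
    apply hc.eventually_mem
    rw [h]
    exact (chartAt (EE n) q).open_target.mem_nhds ht
  have h2 : ∀ᶠ z in 𝓝 y, prj z ∈ (chartAt (EE n) q).source :=
    (prj_cont hy).eventually_mem (by rw [← hq]; exact chart_source_mem_nhds (EE n) q)
  have h3 : ∀ᶠ z in 𝓝 y, z ≠ 0 := isOpen_ne.mem_nhds hy
  filter_upwards [h1, h2, h3] with z hz1 hz2 hz3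
  apply chart_injOn (chart_mem_atlas (EE n) q) ((chartAt (EE n) q).map_source hz2) hz1
  rw [prj_chart (chart_mem_atlas (EE n) q) hz2, prj_smul hz3]

theorem tanChange_eq (x₀ : Hopf n) {y : EE n} (hy : y ≠ 0) :
    ∃ m : ℤ, (2 : ℝ) ^ m • y = chartAt (EE n) (prj y) (prj y) ∧
    ∀ u, tanChange x₀ (prj y) y u = (2 : ℝ) ^ m • u := by
  obtain ⟨m, h1, h2⟩ := chart_prj_local hy
  refine ⟨m, h1, fun u => ?_⟩
  unfold tanChange
  have h3 : (fun z => chartAt (EE n) (prj y) ((chartAt (EE n) x₀).symm z)) =ᶠ[𝓝 y]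
      fun z => (2 : ℝ) ^ m • z := by
    filter_upwards [h2, isOpen_ne.mem_nhds hy] with z hz hz1
    rw [atlas_symm (chart_mem_atlas (EE n) x₀) hz1, hz]
  rw [h3.fderiv_eq]
  have h4 : HasFDerivAt (fun z : EE n => (2 : ℝ) ^ m • z)
      ((2 : ℝ) ^ m • ContinuousLinearMap.id ℝ (EE n)) y :=
    ((2 : ℝ) ^ m • ContinuousLinearMap.id ℝ (EE n)).hasFDerivAt
  rw [h4.fderiv]
  rfl

/-- descent of a scale invariant 1-form to the Hopf manifold. -/
theorem coord_aux {b : EE n → EE n → ℝ}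
    (hb : ∀ (m : ℤ) (y : EE n), y ≠ 0 → ∀ u, b ((2 : ℝ) ^ m • y) ((2 : ℝ) ^ m • u) = b y u)
    (x₀ : Hopf n) {y : EE n} (hy : y ≠ 0) (u : EE n) :
    coordOne (fun p : Hopf n => b (chartAt (EE n) p p)) x₀ y u = b y u := by
  unfold coordOne
  simp only [atlas_symm (chart_mem_atlas (EE n) x₀) hy]
  obtain ⟨m, h1, h2⟩ := tanChange_eq x₀ hy
  rw [h2, ← h1, hb m y hy]

/-- descent of a scale invariant 1-form to the Hopf manifold. -/
noncomputable def descendOne (b : EE n → EE n → ℝ)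
    (hb : ∀ (m : ℤ) (y : EE n), y ≠ 0 → ∀ u, b ((2 : ℝ) ^ m • y) ((2 : ℝ) ^ m • u) = b y u)
    (hl : ∀ y, IsLinearMap ℝ (b y))
    (hs : ∀ (y : EE n), y ≠ 0 → ∀ u, ContDiffAt ℝ ∞ (fun z => b z u) y) : OneForm n (Hopf n) where
  val p := b (chartAt (EE n) p p)
  linear p := hl _
  smooth x₀ u := by
    intro y hy
    have hy0 := target_ne (chart_mem_atlas (EE n) x₀) hy
    apply ContDiffAt.contDiffWithinAt
    refine (hs y hy0 u).congr_of_eventuallyEq ?_
    filter_upwards [isOpen_ne.mem_nhds hy0] with z hz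
    exact coord_aux hb x₀ hz u

variable {b : EE n → EE n → ℝ}
  {hb : ∀ (m : ℤ) (y : EE n), y ≠ 0 → ∀ u, b ((2 : ℝ) ^ m • y) ((2 : ℝ) ^ m • u) = b y u}
  {hl : ∀ y, IsLinearMap ℝ (b y)}
  {hs : ∀ (y : EE n), y ≠ 0 → ∀ u, ContDiffAt ℝ ∞ (fun z => b z u) y}

theorem descendOne_val (p : Hopf n) (u : EE n) :
    (descendOne b hb hl hs).val p u = b (chartAt (EE n) p p) u := rfl

theorem coordOne_descend (x₀ : Hopf n) {y : EE n} (hy : y ≠ 0) (u : EE n) :
    coordOne (descendOne b hb hl hs).val x₀ y u = b y u := coord_aux hb x₀ hy u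

theorem chart_ne (p : Hopf n) : chartAt (EE n) p p ≠ 0 :=
  target_ne (chart_mem_atlas (EE n) p) ((chartAt (EE n) p).map_source (mem_chart_source (EE n) p))

theorem descendOne_d (p : Hopf n) (u v : EE n) :
    (descendOne b hb hl hs).d p u v =
      fderiv ℝ (fun y => b y v) (chartAt (EE n) p p) u -
      fderiv ℝ (fun y => b y u) (chartAt (EE n) p p) v := by
  unfold OneForm.d dirD
  have h : ∀ w : EE n, (fun y => coordOne (descendOne b hb hl hs).val p y w) =ᶠ[𝓝 (chartAt (EE n) p p)]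
      fun y => b y w := by
    intro w
    filter_upwards [isOpen_ne.mem_nhds (chart_ne p)] with z hz
    exact coordOne_descend p hz w
  rw [(h v).fderiv_eq, (h u).fderiv_eq]

/-! ### Curves -/

theorem ext_apply (q₀ q : Hopf n) : extChartAt (𝓡 n) q₀ q = chartAt (EE n) q₀ q := by
  simp [extChartAt]

theorem loc_contDiffAt {γ : ℝ → Hopf n} (hγ : ContMDiff 𝓘(ℝ, ℝ) (𝓡 n) ∞ γ) (t : ℝ) :
    ContDiffAt ℝ ∞ (inChart (n := n) γ t) t := by
  have h := (contMDiffAt_iff.1 (hγ t)).2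
  simp only [modelWithCornersSelf_coe, range_id, contDiffWithinAt_univ] at h
  exact h

/-- near `t`, the chart at `γ s` is related to the chart at `γ t` by a power of two. -/
theorem loc_local {γ : ℝ → Hopf n} (hγ : Continuous γ) (t : ℝ) :
    ∀ᶠ s in 𝓝 t, ∃ m : ℤ, ∀ᶠ r in 𝓝 s,
      inChart (n := n) γ s r = (2 : ℝ) ^ m • inChart (n := n) γ t r := by
  have h1 : ∀ᶠ s in 𝓝 t, γ s ∈ (chartAt (EE n) (γ t)).source :=
    hγ.continuousAt.eventually_mem (chart_source_mem_nhds (EE n) (γ t))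
  filter_upwards [h1] with s hs
  obtain ⟨m, -, h⟩ := deck (chart_mem_atlas (EE n) (γ t)) (chart_mem_atlas (EE n) (γ s)) hs
    (mem_chart_source (EE n) (γ s))
  exact ⟨m, hγ.continuousAt.eventually h⟩

theorem hopf_local {γ : ℝ → Hopf n} (hγ : ContMDiff 𝓘(ℝ, ℝ) (𝓡 n) ∞ γ) (t : ℝ) :
    ∀ᶠ s in 𝓝 t, inChart (n := n) γ t s ≠ 0 ∧ ∃ m : ℤ,
      inChart (n := n) γ s s = (2 : ℝ) ^ m • inChart (n := n) γ t s ∧
      HasDerivAt (inChart (n := n) γ t) ((2 : ℝ) ^ (-m) • velocity γ s) s := by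
  have hd : ∀ᶠ s in 𝓝 t, ContDiffAt ℝ 1 (inChart (n := n) γ t) s :=
    ((loc_contDiffAt hγ t).of_le (by simp)).eventually (by simp)
  have h1 : ∀ᶠ s in 𝓝 t, γ s ∈ (chartAt (EE n) (γ t)).source :=
    hγ.continuous.continuousAt.eventually_mem (chart_source_mem_nhds (EE n) (γ t))
  filter_upwards [loc_local hγ.continuous t, hd, h1] with s hs1 hs2 hs3
  obtain ⟨m, h⟩ := hs1
  refine ⟨target_ne (chart_mem_atlas (EE n) (γ t)) ((chartAt (EE n) (γ t)).map_source hs3), m,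
    h.self_of_nhds, ?_⟩
  have hd : HasDerivAt (inChart γ t) (deriv (inChart γ t) s) s :=
    (hs2.differentiableAt (by simp)).hasDerivAt
  have h1 : velocity (n := n) γ s = (2 : ℝ) ^ m • deriv (inChart γ t) s := by
    have e1 : inChart γ s =ᶠ[𝓝 s] fun r => (2 : ℝ) ^ m • inChart γ t r := h
    unfold velocity
    rw [e1.deriv_eq]
    exact (hd.const_smul ((2 : ℝ) ^ m)).deriv
  rw [h1, smul_smul, ← zpow_add₀ two_ne_zero]
  simpa using hd

/-- the derivative of an invariant function along a curve. -/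
theorem hasDerivAt_inv {γ : ℝ → Hopf n} (hγ : ContMDiff 𝓘(ℝ, ℝ) (𝓡 n) ∞ γ) {X : Type*}
    [NormedAddCommGroup X] [NormedSpace ℝ X] {P : EE n → X}
    (hP : ∀ (m : ℤ) (y : EE n), y ≠ 0 → P ((2 : ℝ) ^ m • y) = P y) (t : ℝ) {P' : EE n →L[ℝ] X}
    (hd : HasFDerivAt P P' (inChart γ t t)) :
    HasDerivAt (fun s => P (inChart γ s s)) (P' (velocity γ t)) t := by
  have h1 := (hopf_local hγ t)
  have h2 : (fun s => P (inChart γ s s)) =ᶠ[𝓝 t] fun s => P (inChart γ t s) := by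
    filter_upwards [h1] with s hs
    obtain ⟨h0, m, hm, -⟩ := hs
    rw [hm, hP m _ h0]
  have h3 : HasDerivAt (inChart (n := n) γ t) (velocity (n := n) γ t) t :=
    ((loc_contDiffAt hγ t).differentiableAt (by simp)).hasDerivAt
  exact (hd.comp_hasDerivAt t h3).congr_of_eventuallyEq h2

theorem continuous_inv {γ : ℝ → Hopf n} (hγ : ContMDiff 𝓘(ℝ, ℝ) (𝓡 n) ∞ γ) {X : Type*}
    [TopologicalSpace X] {P : EE n → X}
    (hP : ∀ (m : ℤ) (y : EE n), y ≠ 0 → P ((2 : ℝ) ^ m • y) = P y)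
    (hc : ∀ y : EE n, y ≠ 0 → ContinuousAt P y) :
    Continuous (fun s => P (inChart γ s s)) := by
  rw [continuous_iff_continuousAt]
  intro t
  have h1 := (hopf_local hγ t)
  have h2 : (fun s => P (inChart γ s s)) =ᶠ[𝓝 t] fun s => P (inChart γ t s) := by
    filter_upwards [h1] with s hs
    obtain ⟨h0, m, hm, -⟩ := hs
    rw [hm, hP m _ h0]
  rw [continuousAt_congr h2]
  exact ContinuousAt.comp (hc _ h1.self_of_nhds.1) (loc_contDiffAt hγ t).continuousAt

/-- continuity of `t ↦ b (γ t) (γ' t)` for a scale invariant form `b`. -/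
theorem form_continuous {γ : ℝ → Hopf n} (hγ : ContMDiff 𝓘(ℝ, ℝ) (𝓡 n) ∞ γ) {b : EE n → EE n → ℝ}
    (hb : ∀ (m : ℤ) (y : EE n), y ≠ 0 → ∀ u, b ((2 : ℝ) ^ m • y) ((2 : ℝ) ^ m • u) = b y u)
    (hc : ∀ y : EE n, y ≠ 0 → ∀ u, ContinuousAt (fun p : EE n × EE n => b p.1 p.2) (y, u)) :
    Continuous (fun s => b (inChart (n := n) γ s s) (velocity γ s)) := by
  rw [continuous_iff_continuousAt]
  intro t
  have h1 := (hopf_local hγ t)
  have h2 : (fun s => b (inChart (n := n) γ s s) (velocity γ s)) =ᶠ[𝓝 t]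
      fun s => b (inChart (n := n) γ t s) (deriv (inChart (n := n) γ t) s) := by
    filter_upwards [h1] with s hs
    obtain ⟨h0, m, hm, h3⟩ := hs
    have h4 : velocity (n := n) γ s = (2 : ℝ) ^ m • deriv (inChart (n := n) γ t) s := by
      rw [h3.deriv, smul_smul, ← zpow_add₀ two_ne_zero]
      simp
    rw [hm, h4, hb m _ h0]
  rw [continuousAt_congr h2]
  have hc1 := loc_contDiffAt hγ t
  have h3 := (hc1.derivWithin (m := 0) (by simp)).continuousAt
  exact ContinuousAt.comp (f := fun s => (inChart (n := n) γ t s, deriv (inChart (n := n) γ t) s))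
    (hc _ h1.self_of_nhds.1 _) (hc1.continuousAt.prodMk h3)

theorem inChart_shift {γ : ℝ → Hopf n} {L : ℝ} (hL : ∀ t, γ (t + L) = γ t) (t s : ℝ) :
    inChart (n := n) γ (t + L) (s + L) = inChart γ t s := by
  unfold inChart
  rw [hL, hL]

end Pool.Agent.Y593.LC.HM
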