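import Pool.Agent.Y593.LC.HopfE
import Pool.Agent.Y593.LC.Stmt

set_option autoImplicit false

/-!
# The properties used in the statement about the Hopf lcs structure on `S³ × S¹`

`S³ × S¹` is realised as the quotient of `ℝ⁴ ∖ 0` by `y ~ 2y`; the diffeomorphism sends the class of `y` to
`(y/|y|, log |y| / log 2 mod 1)`.
-/
open scoped ContDiff Manifold
open Pool.Agent.H660R3 Real

namespace Pool.Agent.Y593.LC

section
variable {M : Type} [TopologicalSpace M] [ChartedSpace (EuclideanSpace ℝ (Fin 4)) M]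

/-- `pr` exhibits the manifold `M` as `(ℝ⁴ ∖ 0) / (y ~ 2y)`: its restriction to `ℝ⁴ ∖ 0` is a quotient map,
two points have the same image iff they differ by a power of two, and the inverses of the charts of `M`
are restrictions of `pr` (the value of `pr` at `0` plays no role). -/
structure IsHopfManifold (pr : EuclideanSpace ℝ (Fin 4) → M) : Prop where
  quotient : Topology.IsQuotientMap (fun y : {y : EuclideanSpace ℝ (Fin 4) // y ≠ 0} => pr y)
  eq_iff : ∀ a b, a ≠ 0 → b ≠ 0 → (pr a = pr b ↔ ∃ m : ℤ, b = (2 : ℝ) ^ m • a)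
  chart : ∀ (x₀ : M), ∀ y ∈ (chartAt (EuclideanSpace ℝ (Fin 4)) x₀).target,
    y ≠ 0 ∧ (chartAt (EuclideanSpace ℝ (Fin 4)) x₀).symm y = pr y

/-- The form `x₀ dx₁ - x₁ dx₀ + x₂ dx₃ - x₃ dx₂`; its restriction to `S³` is the standard contact form,
whose Reeb flow is the Hopf flow. -/
noncomputable def stdForm (x u : EuclideanSpace ℝ (Fin 4)) : ℝ :=
  x 0 * u 1 - x 1 * u 0 + (x 2 * u 3 - x 3 * u 2)

/-- In every chart, `b` is the pullback of the standard contact form of `S³` under `y ↦ y/|y|`. -/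
def IsHopfForm (b : OneForm 4 M) : Prop :=
  ∀ (x₀ : M), ∀ y ∈ (chartAt (EuclideanSpace ℝ (Fin 4)) x₀).target, ∀ u,
    coordOne b.val x₀ y u =
      stdForm (‖y‖⁻¹ • y) (fderiv ℝ (fun z : EuclideanSpace ℝ (Fin 4) => ‖z‖⁻¹ • z) y u)

/-- In every chart, `a` is the differential of `θ = log |y| / log 2`. -/
def IsAngularForm (a : OneForm 4 M) : Prop :=
  ∀ (x₀ : M), ∀ y ∈ (chartAt (EuclideanSpace ℝ (Fin 4)) x₀).target, ∀ u,
    coordOne a.val x₀ y u =
      fderiv ℝ (fun z : EuclideanSpace ℝ (Fin 4) => Real.log ‖z‖ / Real.log 2) y u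

/-- The field `b` of linear forms on `ℝ⁴ ∖ 0` is the pullback of the 1-form `β` of `M`. -/
def IsLift (b : EuclideanSpace ℝ (Fin 4) → EuclideanSpace ℝ (Fin 4) → ℝ) (β : OneForm 4 M) : Prop :=
  (∀ (m : ℤ) (y : EuclideanSpace ℝ (Fin 4)), y ≠ 0 → ∀ u,
    b ((2 : ℝ) ^ m • y) ((2 : ℝ) ^ m • u) = b y u) ∧
  ∀ (x₀ : M), ∀ y ∈ (chartAt (EuclideanSpace ℝ (Fin 4)) x₀).target, ∀ u,
    coordOne β.val x₀ y u = b y u

end

/-- On the shell `1 ≤ |y| ≤ 2` all the derivatives of order at most `k` of the components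
`b(u) - b'(u)`, `|u| ≤ 1`, have norm at most `δ`. -/
def ShellClose (k : ℕ) (δ : ℝ)
    (b b' : EuclideanSpace ℝ (Fin 4) → EuclideanSpace ℝ (Fin 4) → ℝ) : Prop :=
  ∀ y : EuclideanSpace ℝ (Fin 4), 1 ≤ ‖y‖ → ‖y‖ ≤ 2 → ∀ u : EuclideanSpace ℝ (Fin 4), ‖u‖ ≤ 1 →
    ∀ j ≤ k, ‖iteratedFDeriv ℝ j (fun z => b z u - b' z u) y‖ ≤ δ

/-- `lam ε` tends to `lam 0` in `C^k` for every `k`, as `ε` decreases to `0`: the pullbacks to `ℝ⁴ ∖ 0`
do, on the shell `1 ≤ |y| ≤ 2` (which is compact and is mapped onto `M`). -/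
def TendsOnShell {M : Type} [TopologicalSpace M] [ChartedSpace (EuclideanSpace ℝ (Fin 4)) M]
    (lam : ℝ → OneForm 4 M) : Prop :=
  ∃ b : ℝ → EuclideanSpace ℝ (Fin 4) → EuclideanSpace ℝ (Fin 4) → ℝ, (∀ ε, IsLift (b ε) (lam ε)) ∧
    ∀ (k : ℕ) (δ : ℝ), 0 < δ → ∃ ε₁ : ℝ, 0 < ε₁ ∧ ∀ ε, 0 < ε → ε < ε₁ → ShellClose k δ (b ε) (b 0)

/-! ### Proofs -/

open HC HS HM HE

theorem n2_eq (z : EE 4) : n2 z = ‖z‖ ^ 2 := by
  rw [EuclideanSpace.real_norm_sq_eq, Fin.sum_univ_four]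
  rfl

theorem isHopfManifold : IsHopfManifold (M := Hopf 4) prj where
  quotient := by
    have h1 : Topology.IsQuotientMap (HM.mk (n := 4)) := isQuotientMap_quotient_mk'
    have h2 : (fun x : Om 4 => prj (x : EE 4)) = HM.mk := funext fun x => prj_val x
    have h3 : Topology.IsQuotientMap (fun x : Om 4 => prj (x : EE 4)) := by rw [h2]; exact h1
    exact h3
  eq_iff := by
    intro a b ha hb
    rw [prj_eq_iff ha hb]
    exact exists_congr fun m => eq_comm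
  chart := by
    intro x₀ y hy
    have h := target_ne (chart_mem_atlas (EE 4) x₀) hy
    exact ⟨h, atlas_symm (chart_mem_atlas (EE 4) x₀) h⟩

theorem isClosed_hopf : IsClosedManifold 4 (Hopf 4) :=
  ⟨inferInstance, inferInstance, inferInstance, inferInstance, connected_of (by norm_num)⟩

theorem isHopfForm : IsHopfForm (lam 0) := by
  intro x₀ y hy u
  have h0 := target_ne (chart_mem_atlas (EE 4) x₀) hy
  unfold lam
  rw [coordOne_descend x₀ h0]
  have hn : ‖y‖ ≠ 0 := norm_ne_zero_iff.2 h0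
  have h1 : DifferentiableAt ℝ (fun z : EE 4 => ‖z‖⁻¹) y :=
    ((contDiffAt_norm ℝ h0 (n := 1)).differentiableAt (by simp)).inv hn
  have h2 : HasFDerivAt (fun z : EE 4 => ‖z‖⁻¹ • z) _ y :=
    h1.hasFDerivAt.smul (hasFDerivAt_id y)
  rw [h2.fderiv]
  simp only [bl, jp, stdForm, n2_eq]
  simp
  field_simp
  ring

theorem isAngularForm : IsAngularForm alp := by
  intro x₀ y hy u
  have h0 := target_ne (chart_mem_atlas (EE 4) x₀) hy
  unfold alp
  rw [coordOne_descend x₀ h0]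
  have h1 : (fun z : EE 4 => Real.log ‖z‖ / Real.log 2) = th := by
    funext z
    unfold th
    rw [n2_eq, Real.log_pow]
    push_cast
    rw [mul_div_mul_left _ _ two_ne_zero]
  obtain ⟨D, hD, hD2⟩ := th_hasFDerivAt h0
  rw [h1, hD.fderiv, hD2]

theorem isConformal_hopf (ε : ℝ) : IsConformal (lam ε) (lam 0) := by
  intro p
  refine ⟨exp (ε * WW (chartAt (EE 4) p p)), exp_pos _, fun u => ?_⟩
  change bl ε (chartAt (EE 4) p p) u = _ * bl 0 (chartAt (EE 4) p p) u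
  simp [bl]

theorem tendsOnShell : TendsOnShell lam := by
  refine ⟨bl, fun ε => ⟨fun m y hy u => bl_scale ε m hy u, fun x₀ y hy u => ?_⟩, fun k δ hδ => ?_⟩
  · unfold lam
    rw [coordOne_descend x₀ (target_ne (chart_mem_atlas (EE 4) x₀) hy)]
  · obtain ⟨r, hr, h3⟩ := Metric.eventually_nhds_iff.1 (bl_close k hδ)
    refine ⟨r, hr, fun ε h1 h2 => ?_⟩
    exact h3 (by rw [Real.dist_eq, sub_zero, abs_of_pos h1]; exact h2)

theorem exists_eps_hopf : ∃ ε₀ : ℝ, 0 < ε₀ ∧ (∀ ε, 0 ≤ ε → ε < ε₀ → IsExactLcs (lam ε) alp) ∧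
    ∀ ε, 0 < ε → ε < ε₀ → ∀ o : ℝ → Hopf 4, ¬ IsReebCurve (lam ε) o := by
  obtain ⟨K, hK1, hK⟩ := Stair.ee_bounded
  have hK0 : 0 < 1 + K := by linarith
  have h100 : 0 < 100 * (1 + K) := by linarith
  refine ⟨1 / (100 * (1 + K)), by positivity, fun ε h1 h2 => ?_, fun ε h1 h2 o => ?_⟩
  · rw [lt_div_iff₀ h100] at h2
    refine isExactLcs h1 hK ?_
    have : 0 ≤ ε * (1 + K) := by positivity
    linarith
  · rw [lt_div_iff₀ h100] at h2
    refine no_reeb h1 hK1 hK ?_ o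
    nlinarith

end Pool.Agent.Y593.LC
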