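import Mathlib
import Pool.Agent.Y593.LC.HopfS

set_option autoImplicit false

/-!
# Exact lcs structures without Reeb curves, arbitrarily close to the Hopf lcs structure on `S³ × S¹`

Definitions: `Pool.Agent.H660R3.LcsDefs` (1-forms, exact lcs structures, rational forms, Reeb curves),
`Pool.Agent.Y593.LC.Stmt` (`IsClosedManifold`, `IsConformal`), `Pool.Agent.Y593.LC.HopfS` (the rest).
Parts of the proof are by helper888, helper604, helper480 and helper77.
-/
open scoped ContDiff Manifold
open Pool.Agent.H660R3 Pool.Agent.Y593.LC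

namespace Pool.Agent.Y593.LC.ResHopf

/-- Let `(λ_0, α)` be the Hopf lcs structure on `M = S³ × S¹ = (ℝ⁴ ∖ 0)/(y ~ 2y)`, that is, `λ_0` is the
pullback of the standard contact form of `S³` and `α = dθ`. There is a family `λ_ε`, `0 ≤ ε < ε₀`, of
1-forms conformal to `λ_0` and tending to `λ_0` in `C^k` for every `k`, such that all `(λ_ε, α)` are exact
lcs structures with rational `α`, and no `(λ_ε, α)` with `0 < ε < ε₀` has a Reeb curve. -/
theorem result :
    ∃ (M : Type) (_ : TopologicalSpace M) (_ : ChartedSpace (EuclideanSpace ℝ (Fin 4)) M)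
      (pr : EuclideanSpace ℝ (Fin 4) → M),
    IsHopfManifold pr ∧ IsClosedManifold 4 M ∧
    ∃ (alpha : OneForm 4 M) (lam : ℝ → OneForm 4 M) (ε₀ : ℝ),
      0 < ε₀ ∧
      -- the Hopf lcs structure
      IsHopfForm (lam 0) ∧ IsAngularForm alpha ∧ IsRationalForm alpha ∧
      -- a family of exact lcs structures conformal to it
      (∀ ε, 0 ≤ ε → ε < ε₀ → IsExactLcs (lam ε) alpha) ∧
      (∀ ε, IsConformal (lam ε) (lam 0)) ∧
      -- without Reeb curves for `ε > 0`
      (∀ ε, 0 < ε → ε < ε₀ → ∀ o, ¬ IsReebCurve (lam ε) o) ∧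
      -- `λ_ε` tends to `λ_0` in `C^k` for every `k`
      TendsOnShell lam := by
  obtain ⟨ε₀, h0, h1, h2⟩ := exists_eps_hopf
  exact ⟨HM.Hopf 4, inferInstance, inferInstance, HM.prj, isHopfManifold, isClosed_hopf,
    HE.alp, HE.lam, ε₀, h0, isHopfForm, isAngularForm, HE.alp_rational, h1, isConformal_hopf, h2,
    tendsOnShell⟩

end Pool.Agent.Y593.LC.ResHopf
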